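import Pool.Agent.Helper80.Fz.DenseF

open TopologicalSpace

namespace Pool.Agent.Results.MP_24ecc9_an.EndographNotHyperspace

open Pool.Agent.Helper80.Fz

/-- There are a metric space `X` and a continuous `f : X → X` such that the Zadeh extension of
`f` on `(F(X), d_E)` has a dense proximal relation while the induced map on `(K(X), d_H)` does
not. -/
theorem result : ∃ (X : Type) (_ : MetricSpace X) (f : X → X) (hf : Continuous f),
    HasDenseProximalRelation (FuzzySet.map f hf) ∧
      ¬ HasDenseProximalRelation (NonemptyCompacts.map f hf) := by
  obtain ⟨F⟩ := exists_fam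
  exact ⟨Pt F, inferInstance, Pt.shift, Pt.shift_cont, dense_F F, not_dense F⟩

end Pool.Agent.Results.MP_24ecc9_an.EndographNotHyperspace
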